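import Pool.Agent.FTU.Stmts

set_option autoImplicit false

open MeasureTheory Complex ProbabilityTheory Function

namespace Pool.Agent.FTU.H9

open Pool.Agent.FTU
open Pool.Agent.Loc (γ1 γn)

/-! ### one variable -/

theorem int_exp1 (C : ℝ) : Integrable (fun t : ℝ => Real.exp (C * |t|)) γ1 := by
  have h1 : Integrable (fun t : ℝ => Real.exp (C * t)) γ1 := integrable_exp_mul_gaussianReal C
  have h2 : Integrable (fun t : ℝ => Real.exp (-C * t)) γ1 := integrable_exp_mul_gaussianReal (-C)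
  refine (h1.add h2).mono' (by fun_prop) (ae_of_all _ fun t => ?_)
  rw [Real.norm_eq_abs, abs_of_pos (Real.exp_pos _)]
  simp only [Pi.add_apply]
  rcases abs_cases t with ⟨h, -⟩ | ⟨h, -⟩
  · rw [h]
    linarith [Real.exp_pos (-C * t)]
  · rw [h]
    have : C * -t = -C * t := by ring
    rw [this]
    linarith [Real.exp_pos (C * t)]

theorem int1 {f : ℝ → ℂ} (hf : Continuous f) {A B : ℝ} (hb : ∀ t, ‖f t‖ ≤ A * Real.exp (B * |t|)) :
    Integrable f γ1 :=
  ((int_exp1 B).const_mul A).mono' hf.aestronglyMeasurable (ae_of_all _ hb)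

theorem int_pdf {f : ℝ → ℂ} (hf : Integrable f γ1) :
    Integrable (fun t => gaussianPDFReal 0 1 t • f t) := by
  rw [γ1, gaussianReal_of_var_ne_zero _ one_ne_zero] at hf
  rw [integrable_withDensity_iff_integrable_smul' (measurable_gaussianPDF 0 1)
    (ae_of_all _ fun t => ENNReal.ofReal_lt_top)] at hf
  refine hf.congr (ae_of_all _ fun t => ?_)
  simp only
  congr 1
  rw [gaussianPDF, ENNReal.toReal_ofReal (gaussianPDFReal_nonneg 0 1 t)]

theorem stein1c {f f' : ℝ → ℂ} (hf : ∀ t, HasDerivAt f (f' t) t) (hf' : Continuous f')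
    {A B A' B' : ℝ} (hb : ∀ t, ‖f t‖ ≤ A * Real.exp (B * |t|))
    (hb' : ∀ t, ‖f' t‖ ≤ A' * Real.exp (B' * |t|)) :
    ∫ t, (t : ℂ) * f t ∂γ1 = ∫ t, f' t ∂γ1 := by
  have hfc : Continuous f := continuous_iff_continuousAt.2 fun t => (hf t).continuousAt
  have i1 : Integrable f γ1 := int1 hfc hb
  have i2 : Integrable f' γ1 := int1 hf' hb'
  have i3 : Integrable (fun t : ℝ => (t : ℂ) * f t) γ1 := by
    refine int1 (by fun_prop) (A := A) (B := B + 1) fun t => ?_
    rw [norm_mul, Complex.norm_real, Real.norm_eq_abs]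
    have h1 : |t| ≤ Real.exp |t| := by linarith [Real.add_one_le_exp |t|]
    calc |t| * ‖f t‖ ≤ Real.exp |t| * (A * Real.exp (B * |t|)) :=
          mul_le_mul h1 (hb t) (norm_nonneg _) (Real.exp_pos _).le
      _ = A * Real.exp ((B + 1) * |t|) := by
          rw [show (B + 1) * |t| = |t| + B * |t| by ring, Real.exp_add]
          ring
  have j1 := int_pdf i1
  have j2 := int_pdf i2
  have j3 := int_pdf i3
  rw [integral_gaussianReal_eq_integral_smul one_ne_zero,
    integral_gaussianReal_eq_integral_smul one_ne_zero]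
  have h := integral_mul_deriv_eq_deriv_mul_of_integrable (u := f) (u' := f')
    (v := fun t => ((gaussianPDFReal 0 1 t : ℝ) : ℂ))
    (v' := fun t => ((-t * gaussianPDFReal 0 1 t : ℝ) : ℂ))
    (fun x _ => hf x) (fun x _ => (Pool.Agent.Loc.hasDerivAt_pdf x).ofReal_comp) ?_ ?_ ?_
  · have e1 : ∫ t, f t * ((-t * gaussianPDFReal 0 1 t : ℝ) : ℂ) =
        - ∫ t, gaussianPDFReal 0 1 t • ((t : ℂ) * f t) := by
      rw [← integral_neg]
      congr 1
      funext t
      rw [Complex.real_smul]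
      push_cast
      ring
    have e2 : ∫ t, f' t * ((gaussianPDFReal 0 1 t : ℝ) : ℂ) =
        ∫ t, gaussianPDFReal 0 1 t • f' t := by
      congr 1
      funext t
      rw [Complex.real_smul]
      ring
    rw [e1, e2] at h
    exact neg_injective h
  · refine j3.neg.congr (ae_of_all _ fun t => ?_)
    simp only [Pi.neg_apply, Pi.mul_apply, Complex.real_smul]
    push_cast
    ring
  · refine j2.congr (ae_of_all _ fun t => ?_)
    simp only [Pi.mul_apply, Complex.real_smul]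
    ring
  · refine j1.congr (ae_of_all _ fun t => ?_)
    simp only [Pi.mul_apply, Complex.real_smul]
    ring

/-! ### the class `EG` -/

variable {ι : Type} [Fintype ι] [DecidableEq ι]

theorem sum_nn (y : ι → ℝ) : 0 ≤ ∑ i, |y i| := Finset.sum_nonneg fun i _ => abs_nonneg _

theorem eg_nn {f : (ι → ℝ) → ℂ} (h : EG f) :
    ∃ C : ℝ, 0 ≤ C ∧ ∀ y, ‖f y‖ ≤ C * Real.exp (C * ∑ i, |y i|) := by
  obtain ⟨-, C, hC⟩ := h
  refine ⟨|C|, abs_nonneg _, fun y => (hC y).trans ?_⟩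
  refine mul_le_mul (le_abs_self C) (Real.exp_le_exp.mpr ?_) (Real.exp_pos _).le (abs_nonneg _)
  exact mul_le_mul_of_nonneg_right (le_abs_self C) (sum_nn y)

theorem eg_of {f : (ι → ℝ) → ℂ} (hf : Continuous f) {A B : ℝ}
    (h : ∀ y, ‖f y‖ ≤ A * Real.exp (B * ∑ i, |y i|)) : EG f := by
  refine ⟨hf, |A| + |B|, fun y => (h y).trans ?_⟩
  refine mul_le_mul ?_ (Real.exp_le_exp.mpr ?_) (Real.exp_pos _).le (by positivity)
  · linarith [le_abs_self A, abs_nonneg B]
  · refine mul_le_mul_of_nonneg_right ?_ (sum_nn y)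
    linarith [le_abs_self B, abs_nonneg A]

theorem eg_add {f g : (ι → ℝ) → ℂ} (hf : EG f) (hg : EG g) : EG (fun y => f y + g y) := by
  obtain ⟨C, hC0, hC⟩ := eg_nn hf
  obtain ⟨D, hD0, hD⟩ := eg_nn hg
  refine eg_of (hf.1.add hg.1) (A := C + D) (B := C + D) fun y => ?_
  have h1 : Real.exp (C * ∑ i, |y i|) ≤ Real.exp ((C + D) * ∑ i, |y i|) :=
    Real.exp_le_exp.mpr (mul_le_mul_of_nonneg_right (by linarith) (sum_nn y))
  have h2 : Real.exp (D * ∑ i, |y i|) ≤ Real.exp ((C + D) * ∑ i, |y i|) :=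
    Real.exp_le_exp.mpr (mul_le_mul_of_nonneg_right (by linarith) (sum_nn y))
  calc ‖f y + g y‖ ≤ ‖f y‖ + ‖g y‖ := norm_add_le _ _
    _ ≤ C * Real.exp (C * ∑ i, |y i|) + D * Real.exp (D * ∑ i, |y i|) := add_le_add (hC y) (hD y)
    _ ≤ C * Real.exp ((C + D) * ∑ i, |y i|) + D * Real.exp ((C + D) * ∑ i, |y i|) :=
        add_le_add (mul_le_mul_of_nonneg_left h1 hC0) (mul_le_mul_of_nonneg_left h2 hD0)
    _ = _ := by ring

theorem eg_mul {f g : (ι → ℝ) → ℂ} (hf : EG f) (hg : EG g) : EG (fun y => f y * g y) := by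
  obtain ⟨C, hC0, hC⟩ := eg_nn hf
  obtain ⟨D, hD0, hD⟩ := eg_nn hg
  refine eg_of (hf.1.mul hg.1) (A := C * D) (B := C + D) fun y => ?_
  rw [norm_mul]
  calc ‖f y‖ * ‖g y‖ ≤ (C * Real.exp (C * ∑ i, |y i|)) * (D * Real.exp (D * ∑ i, |y i|)) :=
        mul_le_mul (hC y) (hD y) (norm_nonneg _) (mul_nonneg hC0 (Real.exp_pos _).le)
    _ = C * D * Real.exp ((C + D) * ∑ i, |y i|) := by
        rw [add_mul, Real.exp_add]
        ring

theorem eg_const (c : ℂ) : EG (fun _ : ι → ℝ => c) := by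
  refine eg_of continuous_const (A := ‖c‖) (B := 0) fun y => ?_
  rw [zero_mul, Real.exp_zero, mul_one]

theorem le_sum (y : ι → ℝ) (i : ι) : |y i| ≤ ∑ j, |y j| :=
  Finset.single_le_sum (f := fun j => |y j|) (fun _ _ => abs_nonneg _) (Finset.mem_univ i)

theorem eg_coord (i : ι) : EG (fun y : ι → ℝ => ((y i : ℝ) : ℂ)) := by
  refine eg_of (by fun_prop) (A := 1) (B := 1) fun y => ?_
  rw [Complex.norm_real, Real.norm_eq_abs, one_mul, one_mul]
  linarith [le_sum y i, Real.add_one_le_exp (∑ j, |y j|)]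

theorem eg_conj {f : (ι → ℝ) → ℂ} (hf : EG f) : EG (fun y => (starRingEnd ℂ) (f y)) := by
  refine ⟨Complex.continuous_conj.comp hf.1, ?_⟩
  obtain ⟨C, hC⟩ := hf.2
  refine ⟨C, fun y => ?_⟩
  rw [RCLike.norm_conj]
  exact hC y

theorem eg_int {f : (ι → ℝ) → ℂ} (hf : EG f) : Integrable f (γn ι) := by
  obtain ⟨C, hC0, hC⟩ := eg_nn hf
  have h1 : Integrable (fun y : ι → ℝ => ∏ i, Real.exp (C * |y i|)) (γn ι) :=
    Integrable.fintype_prod fun _ => int_exp1 C
  refine (h1.const_mul C).mono' hf.1.aestronglyMeasurable (ae_of_all _ fun y => ?_)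
  refine (hC y).trans (le_of_eq ?_)
  rw [← Real.exp_sum, Finset.mul_sum]

theorem eg_int_sq {f : (ι → ℝ) → ℂ} (hf : EG f) : Integrable (fun y => ‖f y‖ ^ 2) (γn ι) := by
  refine (eg_int (eg_mul hf hf)).norm.congr (ae_of_all _ fun y => ?_)
  simp only [norm_mul]
  ring

theorem eg_pe (P : MvPolynomial ι ℂ) : EG (pe P) := by
  induction P using MvPolynomial.induction_on with
  | C a =>
    have : pe (MvPolynomial.C a) = fun _ : ι → ℝ => a := by
      funext y
      simp [pe]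
    rw [this]
    exact eg_const a
  | add p q hp hq =>
    have : pe (p + q) = fun y => pe p y + pe q y := by
      funext y
      simp [pe]
    rw [this]
    exact eg_add hp hq
  | mul_X p i hp =>
    have : pe (p * MvPolynomial.X i) = fun y => pe p y * ((y i : ℝ) : ℂ) := by
      funext y
      simp [pe]
    rw [this]
    exact eg_mul hp (eg_coord i)

theorem eg_gz (e : ι → ℝ) : EG (fun y => (gz e y : ℂ)) := by
  refine eg_of (by unfold gz; fun_prop) (A := 1) (B := ∑ i, |e i|) fun y => ?_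
  rw [Complex.norm_real, Real.norm_eq_abs, one_mul, gz, abs_of_pos (Real.exp_pos _)]
  refine Real.exp_le_exp.mpr ?_
  have h1 : ∑ i, y i * e i ≤ (∑ i, |e i|) * ∑ i, |y i| := by
    rw [Finset.mul_sum]
    refine Finset.sum_le_sum fun i _ => ?_
    calc y i * e i ≤ |y i * e i| := le_abs_self _
      _ = |e i| * |y i| := by rw [abs_mul, mul_comm]
      _ ≤ (∑ j, |e j|) * |y i| := mul_le_mul_of_nonneg_right (le_sum e i) (abs_nonneg _)
  have h2 : 0 ≤ ∑ i, e i ^ 2 := Finset.sum_nonneg fun i _ => sq_nonneg _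
  have h3 : 0 ≤ (∑ i, |e i|) * ∑ i, |y i| := mul_nonneg (sum_nn e) (sum_nn y)
  linarith

/-! ### integration by parts -/

theorem eg_slice {f : (ι → ℝ) → ℂ} (hf : EG f) (i : ι) (y : ι → ℝ) :
    ∃ A B : ℝ, ∀ t : ℝ, ‖f (update y i t)‖ ≤ A * Real.exp (B * |t|) := by
  obtain ⟨C, hC0, hC⟩ := eg_nn hf
  refine ⟨C * Real.exp (C * ∑ j ∈ Finset.univ.erase i, |y j|), C, fun t => ?_⟩
  refine (hC _).trans (le_of_eq ?_)
  have h1 : ∑ j, |update y i t j| = |t| + ∑ j ∈ Finset.univ.erase i, |y j| := by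
    rw [← Finset.add_sum_erase _ _ (Finset.mem_univ i), update_self]
    congr 1
    refine Finset.sum_congr rfl fun j hj => ?_
    rw [update_of_ne (Finset.ne_of_mem_erase hj)]
  rw [h1, mul_add, Real.exp_add]
  ring

theorem stein_c {f f' : (ι → ℝ) → ℂ} (i : ι) (hf : EG f) (hf' : EG f')
    (hd : ∀ y, HasDerivAt (fun t : ℝ => f (update y i t)) (f' y) (y i)) :
    ∫ y, (y i : ℂ) * f y ∂(γn ι) = ∫ y, f' y ∂(γn ι) := by
  have hmp := Pool.Agent.Loc.resample (n := ι) (ν := γ1) i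
  have e1 : ∀ G : (ι → ℝ) → ℂ, EG G → ∫ y, G y ∂(γn ι) =
      ∫ y, ∫ t, G (update y i t) ∂γ1 ∂(γn ι) := by
    intro G hG
    have hint := eg_int hG
    have h1 : Integrable (fun z : (ι → ℝ) × ℝ => G (update z.1 i z.2)) ((γn ι).prod γ1) :=
      hmp.integrable_comp_of_integrable hint
    rw [← integral_prod (fun z : (ι → ℝ) × ℝ => G (update z.1 i z.2)) h1]
    have h2 := hmp.map_eq
    conv_lhs => rw [γn, ← h2]
    rw [integral_map hmp.measurable.aemeasurable]
    rw [h2]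
    exact hG.1.aestronglyMeasurable
  rw [e1 _ (eg_mul (eg_coord i) hf), e1 _ hf']
  congr 1
  funext y
  simp only [update_self]
  obtain ⟨A, B, hAB⟩ := eg_slice hf i y
  obtain ⟨A', B', hAB'⟩ := eg_slice hf' i y
  have hu : Continuous fun t : ℝ => update y i t := continuous_const.update i continuous_id
  refine stein1c (fun t => ?_) (hf'.1.comp hu) hAB hAB'
  have := hd (update y i t)
  simp only [update_idem, update_self] at this
  exact this

theorem ineq_c {f f' : (ι → ℝ) → ℂ} (i : ι) (hf : EG f) (hf' : EG f')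
    (hd : ∀ y, HasDerivAt (fun t : ℝ => f (update y i t)) (f' y) (y i)) :
    ∫ y, y i ^ 2 * ‖f y‖ ^ 2 ∂(γn ι) ≤
      2 * ∫ y, ‖f y‖ ^ 2 ∂(γn ι) + 4 * ∫ y, ‖f' y‖ ^ 2 ∂(γn ι) := by
  have hG : EG (fun y => (y i : ℂ) * ((starRingEnd ℂ) (f y) * f y)) :=
    eg_mul (eg_coord i) (eg_mul (eg_conj hf) hf)
  have hG' : EG (fun y => (starRingEnd ℂ) (f y) * f y +
      (y i : ℂ) * ((starRingEnd ℂ) (f' y) * f y + (starRingEnd ℂ) (f y) * f' y)) :=
    eg_add (eg_mul (eg_conj hf) hf) (eg_mul (eg_coord i)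
      (eg_add (eg_mul (eg_conj hf') hf) (eg_mul (eg_conj hf) hf')))
  have h1 := stein_c i hG hG' fun y => by
    have h2 := hd y
    have h3 : HasDerivAt (fun t : ℝ => (starRingEnd ℂ) (f (update y i t)))
        ((starRingEnd ℂ) (f' y)) (y i) := h2.star
    have h4 : HasDerivAt (fun t : ℝ => (t : ℂ)) 1 (y i) := by
      simpa using (hasDerivAt_id (y i)).ofReal_comp
    have h5 : HasDerivAt (fun t : ℝ => (t : ℂ) * ((starRingEnd ℂ) (f (update y i t)) *
        f (update y i t))) (1 * ((starRingEnd ℂ) (f (update y i (y i))) * f (update y i (y i))) +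
        ((y i : ℝ) : ℂ) * ((starRingEnd ℂ) (f' y) * f (update y i (y i)) +
          (starRingEnd ℂ) (f (update y i (y i))) * f' y)) (y i) := h4.mul (h3.mul h2)
    simp only [update_eq_self, one_mul] at h5
    simp only [update_self]
    exact h5
  have e1 : ∀ y : ι → ℝ, (y i : ℂ) * ((y i : ℂ) * ((starRingEnd ℂ) (f y) * f y)) =
      ((y i ^ 2 * ‖f y‖ ^ 2 : ℝ) : ℂ) := by
    intro y
    rw [Complex.conj_mul']
    push_cast
    ring
  have e2 : ∀ y : ι → ℝ, (starRingEnd ℂ) (f y) * f y +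
      (y i : ℂ) * ((starRingEnd ℂ) (f' y) * f y + (starRingEnd ℂ) (f y) * f' y) =
      ((‖f y‖ ^ 2 + y i * (2 * ((starRingEnd ℂ) (f y) * f' y).re) : ℝ) : ℂ) := by
    intro y
    rw [Complex.conj_mul']
    have h2 : (starRingEnd ℂ) (f' y) * f y + (starRingEnd ℂ) (f y) * f' y =
        ((2 * ((starRingEnd ℂ) (f y) * f' y).re : ℝ) : ℂ) := by
      have h3 := Complex.add_conj ((starRingEnd ℂ) (f y) * f' y)
      rw [map_mul, Complex.conj_conj] at h3
      rw [← h3]
      ring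
    rw [h2]
    push_cast
    ring
  simp only [e1, e2] at h1
  rw [integral_complex_ofReal, integral_complex_ofReal] at h1
  have h2 := Complex.ofReal_injective h1
  have i1 : Integrable (fun y => ‖f y‖ ^ 2) (γn ι) := eg_int_sq hf
  have i2 : Integrable (fun y => ‖f' y‖ ^ 2) (γn ι) := eg_int_sq hf'
  have i3 : Integrable (fun y : ι → ℝ => y i ^ 2 * ‖f y‖ ^ 2) (γn ι) := by
    refine (eg_int_sq (eg_mul (eg_coord i) hf)).congr (ae_of_all _ fun y => ?_)
    simp only [norm_mul, Complex.norm_real, Real.norm_eq_abs, mul_pow, sq_abs]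
  have i4 : Integrable (fun y : ι → ℝ =>
      ‖f y‖ ^ 2 + y i * (2 * ((starRingEnd ℂ) (f y) * f' y).re)) (γn ι) := by
    refine (eg_int hG').re.congr (ae_of_all _ fun y => ?_)
    simp only [e2]
    exact Complex.ofReal_re _
  have h3 : ∫ y, (‖f y‖ ^ 2 + y i * (2 * ((starRingEnd ℂ) (f y) * f' y).re)) ∂(γn ι) ≤
      ∫ y, (‖f y‖ ^ 2 + ((1 / 2) * (y i ^ 2 * ‖f y‖ ^ 2) + 2 * ‖f' y‖ ^ 2)) ∂(γn ι) := by
    refine integral_mono i4 (i1.add ((i3.const_mul _).add (i2.const_mul _))) fun y => ?_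
    refine add_le_add le_rfl ?_
    have h4 : |((starRingEnd ℂ) (f y) * f' y).re| ≤ ‖f y‖ * ‖f' y‖ := by
      refine (Complex.abs_re_le_norm _).trans ?_
      rw [norm_mul, RCLike.norm_conj]
    have h5 : y i * (2 * ((starRingEnd ℂ) (f y) * f' y).re) ≤ 2 * (|y i| * (‖f y‖ * ‖f' y‖)) := by
      calc y i * (2 * ((starRingEnd ℂ) (f y) * f' y).re)
          ≤ |y i * (2 * ((starRingEnd ℂ) (f y) * f' y).re)| := le_abs_self _
        _ = 2 * (|y i| * |((starRingEnd ℂ) (f y) * f' y).re|) := by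
            rw [abs_mul, abs_mul, abs_of_pos (by norm_num : (0 : ℝ) < 2)]
            ring
        _ ≤ 2 * (|y i| * (‖f y‖ * ‖f' y‖)) := by
            refine mul_le_mul_of_nonneg_left ?_ (by norm_num)
            exact mul_le_mul_of_nonneg_left h4 (abs_nonneg _)
    refine h5.trans ?_
    have h6 := sq_nonneg (|y i| * ‖f y‖ - 2 * ‖f' y‖)
    have h7 : |y i| ^ 2 = y i ^ 2 := sq_abs _
    nlinarith [h6, h7]
  have h4 : ∫ y, (‖f y‖ ^ 2 + ((1 / 2) * (y i ^ 2 * ‖f y‖ ^ 2) + 2 * ‖f' y‖ ^ 2)) ∂(γn ι) =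
      ∫ y, ‖f y‖ ^ 2 ∂(γn ι) + ((1 / 2) * ∫ y, y i ^ 2 * ‖f y‖ ^ 2 ∂(γn ι) +
        2 * ∫ y, ‖f' y‖ ^ 2 ∂(γn ι)) := by
    have i5 : Integrable (fun y : ι → ℝ => (1 / 2) * (y i ^ 2 * ‖f y‖ ^ 2)) (γn ι) := i3.const_mul _
    have i6 : Integrable (fun y : ι → ℝ => 2 * ‖f' y‖ ^ 2) (γn ι) := i2.const_mul _
    have h5 := integral_add i1 (i5.add i6)
    have h6 := integral_add i5 i6
    rw [integral_const_mul, integral_const_mul] at h6
    simp only [Pi.add_apply] at h5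
    rw [h5, h6]
  rw [← h2, h4] at h3
  linarith

theorem egc : EgcStmt := by
  intro ι _ _
  exact ⟨fun f g hf hg => ⟨eg_add hf hg, eg_mul hf hg⟩,
    fun f hf => ⟨eg_conj hf, eg_int hf, eg_int_sq hf⟩, eg_pe, eg_gz,
    fun f f' i hf hf' hd => ⟨stein_c i hf hf' hd, ineq_c i hf hf' hd⟩⟩

end Pool.Agent.FTU.H9
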